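import Pool.Agent.H70.NC.Targets

/-! SGV of the board nc_modules: the values of the tables. -/

set_option autoImplicit false

namespace Pool.Agent.H81.NC

open Finset Filter Pool.Agent.H6.NB Pool.Agent.H70.OQ Pool.Agent.H70.NC

private theorem sg_inj (h : T_TST) {l : ℕ → ℕ} (hl : StrictMono l) {E : Finset (ℕ × ℕ)}
    (a b : Σ p : {a // a ∈ E}, Nq p.1.2 (l p.1.2) p.1.1)
    (hab : tst a.1.1.1 a.1.1.2 (l a.1.1.2) a.2 = tst b.1.1.1 b.1.1.2 (l b.1.1.2) b.2) : a = b := by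
  obtain ⟨⟨⟨k, n⟩, hk⟩, v⟩ := a
  obtain ⟨⟨⟨k', n'⟩, hk'⟩, v'⟩ := b
  have h1 := h l hl ⟨(k, n), v⟩ ⟨(k', n'), v'⟩ hab
  cases h1
  rfl

theorem sgv (h : T_TST) : T_SGV := by
  intro l hl E
  refine ⟨?_, ?_⟩
  · intro P p v
    have hex : ∃ a : Σ p : {a // a ∈ E}, Nq p.1.2 (l p.1.2) p.1.1,
        tst p.1.1 p.1.2 (l p.1.2) v = tst a.1.1.1 a.1.1.2 (l a.1.1.2) a.2 := ⟨⟨p, v⟩, rfl⟩
    have h1 : hex.choose = ⟨p, v⟩ := (sg_inj h hl ⟨p, v⟩ hex.choose hex.choose_spec).symm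
    unfold Pool.Agent.H70.NC.sg
    rw [dif_pos hex, h1]
  · intro w
    by_cases hex : ∃ a : Σ p : {a // a ∈ E}, Nq p.1.2 (l p.1.2) p.1.1,
        w = tst a.1.1.1 a.1.1.2 (l a.1.1.2) a.2
    · obtain ⟨a, ha⟩ := hex
      exact Or.inl ⟨a.1, a.2, ha⟩
    · refine Or.inr fun P => ?_
      unfold Pool.Agent.H70.NC.sg
      rw [dif_neg hex]

end Pool.Agent.H81.NC
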