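import Pool.Agent.H70.NC.Targets

/-! TST of the board nc_modules: the positions of the tables are different. -/

set_option autoImplicit false

namespace Pool.Agent.H81.NC

open Finset Filter Pool.Agent.H6.NB Pool.Agent.H70.OQ Pool.Agent.H70.NC

private theorem rep_inj : ∀ (k k' : ℕ) (s s' : List Bool),
    List.replicate k true ++ false :: s = List.replicate k' true ++ false :: s' →
      k = k' ∧ s = s' := by
  intro k
  induction k with
  | zero =>
    intro k' s s' h
    cases k' with
    | zero => simpa using h
    | succ k' => simp [List.replicate_succ] at h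
  | succ k ih =>
    intro k' s s' h
    cases k' with
    | zero => simp [List.replicate_succ] at h
    | succ k' =>
      rw [List.replicate_succ, List.replicate_succ, List.cons_append, List.cons_append] at h
      obtain ⟨h1, h2⟩ := ih k' s s' (List.cons.inj h).2
      exact ⟨by rw [h1], h2⟩

theorem tst_ (h : T_NSQ) : T_TST := by
  intro l hl a a' heq
  obtain ⟨⟨k, n⟩, v⟩ := a
  obtain ⟨⟨k', n'⟩, v'⟩ := a'
  unfold tst at heq
  obtain ⟨h1, h2⟩ := rep_inj _ _ _ _ (List.cons.inj heq).2
  dsimp only at h1 h2 v v'
  subst h1
  have h3 : n + (2 ^ (k + 1) - 1) * l n = n' + (2 ^ (k + 1) - 1) * l n' := by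
    rw [← (h n (l n) k).1 v, ← (h n' (l n') k).1 v', h2]
  have h4 : n = n' := by
    rcases lt_trichotomy n n' with hlt | heq | hgt
    · have := Nat.mul_le_mul_left (2 ^ (k + 1) - 1) (hl hlt).le
      omega
    · exact heq
    · have := Nat.mul_le_mul_left (2 ^ (k + 1) - 1) (hl hgt).le
      omega
  subst h4
  have h5 := (h n (l n) k).2.1 v v' h2
  rw [h5]

end Pool.Agent.H81.NC
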